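import Pool.Agent.Helper60.HB.Skel

set_option autoImplicit false

open NumberField

namespace Pool.Agent.Helper44.HB

open Pool.Agent.Helper60.HB

/-- `1 + log d` is at most a small power of `d`. -/
theorem fin_logpow (η : ℝ) (hη : 0 < η) (d : ℝ) (hd : 1 ≤ d) :
    (1 + Real.log d) ^ 3 ≤ (1 + 3 / η) ^ 3 * d ^ η := by
  have h0 : 0 ≤ Real.log d := Real.log_nonneg hd
  have h1 : Real.log d ≤ d ^ (η / 3) / (η / 3) := Real.log_le_rpow_div (by linarith) (by positivity)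
  have h2 : 1 ≤ d ^ (η / 3) := Real.one_le_rpow hd (by positivity)
  have h3 : 1 + Real.log d ≤ (1 + 3 / η) * d ^ (η / 3) := by
    have : d ^ (η / 3) / (η / 3) = 3 / η * d ^ (η / 3) := by field_simp
    rw [this] at h1
    linarith
  calc (1 + Real.log d) ^ 3 ≤ ((1 + 3 / η) * d ^ (η / 3)) ^ 3 :=
        pow_le_pow_left₀ (by linarith) h3 3
    _ = (1 + 3 / η) ^ 3 * d ^ η := by
        rw [mul_pow, ← Real.rpow_natCast (d ^ (η / 3)), ← Real.rpow_mul (by linarith)]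
        congr 2
        push_cast
        ring

theorem fin_solve (s t K : ℝ) (hs : 0 < s) (hst : s < t) (hK : 1 ≤ K) :
    ∃ C : ℝ, 1 ≤ C ∧ ∀ U d : ℝ, 0 ≤ U → 1 ≤ d →
      U ≤ K * d ^ s * (1 + Real.log d + Real.log (1 + U)) ^ 3 → U ≤ C * d ^ t := by
  set η : ℝ := (t - s) / (1 + t) with hη
  have hη0 : 0 < η := by rw [hη]; apply div_pos <;> linarith
  have hη1 : η < 1 := by rw [hη, div_lt_one (by linarith)]; linarith
  have hη2 : s + η = t * (1 - η) := by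
    have h : η * (1 + t) = t - s := by rw [hη]; exact div_mul_cancel₀ _ (by linarith)
    linear_combination h
  set K1 : ℝ := (1 + 3 / η) ^ 3 with hK1
  have hK1' : 1 ≤ K1 := by
    rw [hK1]; apply one_le_pow₀
    have : 0 < 3 / η := by positivity
    linarith
  set K2 : ℝ := 1 + K * K1 * K1 with hK2
  have hK2' : 1 ≤ K2 := by rw [hK2]; have : 0 ≤ K * K1 * K1 := by positivity
                           linarith
  refine ⟨K2 ^ (1 / (1 - η)), Real.one_le_rpow hK2' (by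
    apply div_nonneg <;> linarith), fun U d hU hd h => ?_⟩
  set V : ℝ := 1 + U with hV
  have hV1 : 1 ≤ V := by linarith
  have hld : 0 ≤ Real.log d := Real.log_nonneg hd
  have hlV : 0 ≤ Real.log V := Real.log_nonneg hV1
  have h1 : (1 + Real.log d + Real.log V) ^ 3 ≤ (K1 * d ^ η) * (K1 * V ^ η) := by
    have h2 : 1 + Real.log d + Real.log V ≤ (1 + Real.log d) * (1 + Real.log V) := by nlinarith
    calc (1 + Real.log d + Real.log V) ^ 3 ≤ ((1 + Real.log d) * (1 + Real.log V)) ^ 3 :=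
          pow_le_pow_left₀ (by linarith) h2 3
      _ = (1 + Real.log d) ^ 3 * (1 + Real.log V) ^ 3 := by ring
      _ ≤ _ := mul_le_mul (fin_logpow η hη0 d hd) (fin_logpow η hη0 V hV1) (by positivity)
          (by positivity)
  have hds : 1 ≤ d ^ (s + η) := Real.one_le_rpow hd (by linarith)
  have hVη : 1 ≤ V ^ η := Real.one_le_rpow hV1 hη0.le
  have h3 : V ≤ K2 * d ^ (s + η) * V ^ η := by
    have h4 : U ≤ K * d ^ s * ((K1 * d ^ η) * (K1 * V ^ η)) :=
      h.trans (mul_le_mul_of_nonneg_left h1 (by positivity))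
    have h5 : K * d ^ s * ((K1 * d ^ η) * (K1 * V ^ η)) = K * K1 * K1 * d ^ (s + η) * V ^ η := by
      rw [Real.rpow_add (by linarith)]; ring
    rw [h5] at h4
    have h6 : 1 ≤ d ^ (s + η) * V ^ η := one_le_mul_of_one_le_of_one_le hds hVη
    rw [hK2]
    nlinarith
  have hVpos : 0 < V := by linarith
  have h7 : V ^ (1 - η) ≤ K2 * d ^ (s + η) := by
    rw [Real.rpow_sub hVpos, Real.rpow_one, div_le_iff₀ (by positivity)]
    exact h3
  have h8 : V ≤ (K2 * d ^ (s + η)) ^ (1 / (1 - η)) := by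
    have h9 := Real.rpow_le_rpow (by positivity) h7 (z := 1 / (1 - η)) (by
      apply div_nonneg <;> linarith)
    rwa [← Real.rpow_mul hVpos.le, mul_one_div_cancel (by linarith), Real.rpow_one] at h9
  have h10 : (K2 * d ^ (s + η)) ^ (1 / (1 - η)) = K2 ^ (1 / (1 - η)) * d ^ t := by
    rw [Real.mul_rpow (by linarith) (by positivity), ← Real.rpow_mul (by linarith), hη2]
    congr 2
    have : 1 - η ≠ 0 := by linarith
    field_simp
  rw [h10] at h8
  linarith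

/-- logarithm of a complex number -/
theorem fin_norm_log (z : ℂ) (M : ℝ) (h : |Real.log ‖z‖| ≤ M) : ‖Complex.log z‖ ≤ M + Real.pi := by
  refine (Complex.norm_le_abs_re_add_abs_im _).trans ?_
  rw [Complex.log_re, Complex.log_im]
  exact add_le_add h (Complex.abs_arg_le_pi z)

theorem fin_alpha (hHTS : ST_HTS) (K L : Type) [Field K] [NumberField K] [Field L] [NumberField L]
    (t2 t3 : K →+* L) (β : K) (a : ℝ) (hβ : β ≠ 0) (ha : 1 ≤ a) (hs : SizeLe β a)
    (hL : Module.finrank ℚ L ≤ 9) (e : L) (he : e = 1 ∨ e = -1) :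
    (e * (t2 β / t3 β) ≠ 0) ∧ Height.logHeight₁ (e * (t2 β / t3 β)) ≤ 36 * a ∧
    ∀ i : L →+* ℂ, |Real.log ‖i (e * (t2 β / t3 β))‖| ≤ 2 * a := by
  have h2 : t2 β ≠ 0 := (map_ne_zero t2).2 hβ
  have h3 : t3 β ≠ 0 := (map_ne_zero t3).2 hβ
  have he0 : e ≠ 0 := by rcases he with rfl | rfl <;> simp
  have hne : ∀ i : L →+* ℂ, ‖i e‖ = 1 := by
    intro i
    rcases he with rfl | rfl <;> simp
  obtain ⟨⟨q, hq1, hqa, hqi, hqi'⟩, hτ⟩ := hs
  have hlog : ∀ i : L →+* ℂ, |Real.log ‖i (e * (t2 β / t3 β))‖| ≤ 2 * a := by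
    intro i
    rw [map_mul, map_div₀, norm_mul, norm_div, hne, one_mul, Real.log_div
      (norm_ne_zero_iff.2 ((map_ne_zero i).2 h2)) (norm_ne_zero_iff.2 ((map_ne_zero i).2 h3))]
    have h4 := hτ (i.comp t2)
    have h5 := hτ (i.comp t3)
    rw [RingHom.comp_apply] at h4 h5
    have := abs_sub (Real.log ‖i (t2 β)‖) (Real.log ‖i (t3 β)‖)
    linarith
  refine ⟨mul_ne_zero he0 (div_ne_zero h2 h3), ?_, hlog⟩
  have h6 := hHTS L (e * (t2 β / t3 β)) (q ^ 2) (Real.exp (2 * a)) (Nat.one_le_pow _ _ hq1)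
    (Real.one_le_exp (by linarith)) ?_ ?_
  · rw [Real.log_exp] at h6
    push_cast at h6
    rw [Real.log_pow] at h6
    have h7 : (Module.finrank ℚ L : ℝ) ≤ 9 := by exact_mod_cast hL
    have h8 : 0 ≤ Real.log q := Real.log_nonneg (by exact_mod_cast hq1)
    refine h6.trans ?_
    push_cast
    have h9 : (2 * Real.log q + 2 * a) ≤ 4 * a := by linarith
    calc (Module.finrank ℚ L : ℝ) * (2 * Real.log q + 2 * a) ≤ 9 * (4 * a) :=
          mul_le_mul h7 h9 (by linarith) (by norm_num)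
      _ = 36 * a := by ring
  · have h7 : ((q ^ 2 : ℕ) : L) * (e * (t2 β / t3 β)) =
        e * (t2 ((q : K) * β) * t3 ((q : K) * β⁻¹)) := by
      rw [map_mul, map_mul, map_natCast, map_natCast, map_inv₀]
      push_cast
      ring
    rw [h7]
    have he' : IsIntegral ℤ e := by
      rcases he with rfl | rfl
      · exact isIntegral_one
      · exact isIntegral_one.neg
    exact he'.mul ((map_isIntegral_int t2 hqi).mul (map_isIntegral_int t3 hqi'))
  · intro τ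
    have h7 := hlog τ
    have h8 : ‖τ (e * (t2 β / t3 β))‖ ≠ 0 :=
      norm_ne_zero_iff.2 ((map_ne_zero τ).2 (mul_ne_zero he0 (div_ne_zero h2 h3)))
    have h9 : 0 < ‖τ (e * (t2 β / t3 β))‖ := lt_of_le_of_ne (norm_nonneg _) h8.symm
    rw [← Real.log_le_iff_le_exp h9]
    exact (le_abs_self _).trans h7

theorem fin_key (hHTS : ST_HTS) (K L : Type) [Field K] [NumberField K] [Field L] [NumberField L]
    (t2 t3 : K →+* L) (hL : Module.finrank ℚ L ≤ 9) (n : ℕ) (β : Fin n → K) (a : Fin n → ℝ)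
    (β' : K) (a' : ℝ) (hβ : ∀ i, β i ≠ 0 ∧ 1 ≤ a i ∧ SizeLe (β i) (a i)) (hβ' : β' ≠ 0)
    (ha' : 1 ≤ a') (hβ's : SizeLe β' a') (k : Fin (n + 1)) :
    (Fin.cons (-1 * (t2 β' / t3 β')) (fun j => 1 * (t2 (β j) / t3 (β j))) : Fin (n + 1) → L) k ≠ 0 ∧
    Height.logHeight₁
      ((Fin.cons (-1 * (t2 β' / t3 β')) (fun j => 1 * (t2 (β j) / t3 (β j))) : Fin (n + 1) → L) k) ≤
        (Fin.cons (36 * a') (fun j => 36 * a j) : Fin (n + 1) → ℝ) k ∧
    (∀ i : L →+* ℂ, |Real.log ‖i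
      ((Fin.cons (-1 * (t2 β' / t3 β')) (fun j => 1 * (t2 (β j) / t3 (β j))) : Fin (n + 1) → L) k)‖|
        ≤ (Fin.cons (36 * a') (fun j => 36 * a j) : Fin (n + 1) → ℝ) k / 18) ∧
    36 ≤ (Fin.cons (36 * a') (fun j => 36 * a j) : Fin (n + 1) → ℝ) k := by
  refine Fin.cases ?_ (fun j => ?_) k
  · obtain ⟨h1, h2, h3⟩ := fin_alpha hHTS K L t2 t3 β' a' hβ' ha' hβ's hL (-1) (Or.inr rfl)
    simp only [Fin.cons_zero]
    refine ⟨h1, h2, fun i => (h3 i).trans (le_of_eq (by ring)), by linarith⟩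
  · obtain ⟨h1, h2, h3⟩ := fin_alpha hHTS K L t2 t3 (β j) (a j) (hβ j).1 (hβ j).2.1 (hβ j).2.2
      hL 1 (Or.inl rfl)
    simp only [Fin.cons_succ]
    refine ⟨h1, h2, fun i => (h3 i).trans (le_of_eq (by ring)), by linarith [(hβ j).2.1]⟩

theorem fin_data (hHTS : ST_HTS) (K L : Type) [Field K] [NumberField K] [Field L] [NumberField L]
    (i : L →+* ℂ) (t2 t3 : K →+* L) (hL : Module.finrank ℚ L ≤ 9) (n : ℕ) (β : Fin n → K)
    (a : Fin n → ℝ) (β' : K) (a' : ℝ) (c : Fin n → ℤ)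
    (hβ : ∀ i, β i ≠ 0 ∧ 1 ≤ a i ∧ SizeLe (β i) (a i))
    (hβ' : β' ≠ 0) (ha' : 1 ≤ a') (hβ's : SizeLe β' a') (γ : K)
    (hγ : γ = β' * ∏ j, β j ^ c j) :
    ∃ (D : BData (n + 1) L) (b : Fin (n + 1) → ℤ), b 0 = 1 ∧ (∀ j, b (Fin.succ j) = c j) ∧
      (∀ k, 36 ≤ D.A k) ∧ ∏ k, D.A k = 36 ^ (n + 1) * (a' * ∏ j, a j) ∧
      Complex.exp (LS D.l b) = i (-(t2 γ / t3 γ)) := by
  have key := fin_key hHTS K L t2 t3 hL n β a β' a' hβ hβ' ha' hβ's
  refine ⟨{ σ := i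
            α := Fin.cons (-1 * (t2 β' / t3 β')) (fun j => 1 * (t2 (β j) / t3 (β j)))
            l := fun k => Complex.log (i ((Fin.cons (-1 * (t2 β' / t3 β'))
              (fun j => 1 * (t2 (β j) / t3 (β j))) : Fin (n + 1) → L) k))
            A := Fin.cons (36 * a') (fun j => 36 * a j)
            α_ne := fun k => (key k).1
            exp_l := fun k => Complex.exp_log ((map_ne_zero i).2 (key k).1)
            one_le_A := fun k => by linarith [(key k).2.2.2]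
            l_le := fun k => by
              refine (fin_norm_log _ _ ((key k).2.2.1 i)).trans ?_
              have := Real.pi_le_four
              have := (key k).2.2.2
              linarith
            h_le := fun k => (key k).2.1 }, Fin.cons 1 c, rfl, fun j => rfl,
            fun k => (key k).2.2.2, ?_, ?_⟩
  · simp only [Fin.prod_univ_succ, Fin.cons_zero, Fin.cons_succ, Finset.prod_mul_distrib,
      Finset.prod_const, Finset.card_univ, Fintype.card_fin]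
    ring
  · simp only [LS]
    rw [Complex.exp_sum]
    have h1 : ∀ k : Fin (n + 1), Complex.exp ((((Fin.cons 1 c : Fin (n + 1) → ℤ) k : ℤ) : ℂ) *
        Complex.log (i ((Fin.cons (-1 * (t2 β' / t3 β'))
          (fun j => 1 * (t2 (β j) / t3 (β j))) : Fin (n + 1) → L) k))) =
        i ((Fin.cons (-1 * (t2 β' / t3 β'))
          (fun j => 1 * (t2 (β j) / t3 (β j))) : Fin (n + 1) → L) k ^
            (Fin.cons 1 c : Fin (n + 1) → ℤ) k) := by
      intro k
      rw [Complex.exp_int_mul, Complex.exp_log ((map_ne_zero i).2 (key k).1), map_zpow₀]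
    rw [Finset.prod_congr rfl fun k _ => h1 k, ← map_prod]
    congr 1
    simp only [Fin.prod_univ_succ, Fin.cons_zero, Fin.cons_succ, zpow_one, one_mul, div_zpow,
      Finset.prod_div_distrib]
    rw [hγ, map_mul, map_mul, map_prod, map_prod]
    simp only [map_zpow₀]
    ring

theorem fin_lin (hHTS : ST_HTS) (n : ℕ) (C2 : ℝ) (hB : ∀ (L : Type) [Field L] [NumberField L],
      Module.finrank ℚ L ≤ 9 → ∀ (D : BData (n + 1) L) (b0 : ℤ) (b : Fin (n + 1) → ℤ) (B : ℝ),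
      2 ≤ B → |(b0 : ℝ)| ≤ B → (∀ i, |(b i : ℝ)| ≤ B) →
      (b0 : ℂ) * (2 * Real.pi * Complex.I) + LS D.l b ≠ 0 →
      Real.exp (-C2 * (∏ i, D.A i) * (Real.log (B * ∏ i, D.A i) + 1) ^ 3) ≤
        ‖(b0 : ℂ) * (2 * Real.pi * Complex.I) + LS D.l b‖)
    (K L : Type) [Field K] [NumberField K] [Field L] [NumberField L]
    (i : L →+* ℂ) (t2 t3 : K →+* L) (hL : Module.finrank ℚ L ≤ 9) (β : Fin n → K)
    (a : Fin n → ℝ) (β' : K) (a' : ℝ) (c : Fin n → ℤ)
    (hβ : ∀ i, β i ≠ 0 ∧ 1 ≤ a i ∧ SizeLe (β i) (a i))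
    (hβ' : β' ≠ 0) (ha' : 1 ≤ a') (hβ's : SizeLe β' a') (γ : K)
    (hγ : γ = β' * ∏ j, β j ^ c j) (ξ : ℂ) (hξ0 : ξ ≠ 0) (hξ : ‖ξ‖ ≤ 1 / 2)
    (hγξ : i (-(t2 γ / t3 γ)) = 1 + ξ) (E : ℝ) (hE : 1 ≤ E) (hc : ∀ j, |(c j : ℝ)| ≤ E)
    (Om : ℝ) (hOm : Om = 36 ^ (n + 1) * (a' * ∏ j, a j)) :
    Real.exp (-C2 * Om * (Real.log (((n : ℝ) + 3) * E * Om * Om) + 1) ^ 3) ≤ 3 / 2 * ‖ξ‖ := by
  obtain ⟨D, b, hb0, hbs, hA, hprod, hexp⟩ := fin_data hHTS K L i t2 t3 hL n β a β' a' c hβ hβ' ha'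
    hβ's γ hγ
  rw [hγξ] at hexp
  have h1ξ : 1 + ξ ≠ 0 := by
    intro h
    have : ξ = -1 := by linear_combination h
    rw [this, norm_neg, norm_one] at hξ
    linarith
  have hlog : ‖Complex.log (1 + ξ)‖ ≤ 3 / 2 * ‖ξ‖ := Complex.norm_log_one_add_half_le_self hξ
  have hlog0 : Complex.log (1 + ξ) ≠ 0 := by
    intro h
    have := Complex.exp_log h1ξ
    rw [h, Complex.exp_zero] at this
    apply hξ0
    linear_combination -this
  obtain ⟨m, hm⟩ := Complex.exp_eq_exp_iff_exists_int.1 ((Complex.exp_log h1ξ).trans hexp.symm)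
  have hm' : (m : ℂ) * (2 * Real.pi * Complex.I) + LS D.l b = Complex.log (1 + ξ) := by
    rw [hm]; ring
  -- size of the coefficients
  have hbk : ∀ k, |(b k : ℝ)| ≤ E := by
    intro k
    refine Fin.cases ?_ (fun j => ?_) k
    · rw [hb0]; simpa using hE
    · rw [hbs]; exact hc j
  have hA1 : ∀ k, 1 ≤ D.A k := D.one_le_A
  have hAle : ∀ k, D.A k ≤ Om := by
    intro k
    rw [hOm, ← hprod, ← Finset.mul_prod_erase Finset.univ D.A (Finset.mem_univ k)]
    have h2 : 1 ≤ ∏ j ∈ Finset.univ.erase k, D.A j :=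
      Finset.prod_induction _ (fun z => 1 ≤ z) (fun _ _ => one_le_mul_of_one_le_of_one_le) le_rfl
        (fun j _ => hA1 j)
    nlinarith [hA1 k]
  have hOm1 : 1 ≤ Om := (hA1 0).trans (hAle 0)
  have hn0 : (0 : ℝ) ≤ n := Nat.cast_nonneg n
  have hEO : 1 ≤ E * Om := one_le_mul_of_one_le_of_one_le hE hOm1
  have hLS : ‖LS D.l b‖ ≤ ((n : ℝ) + 1) * (E * Om) := by
    rw [LS]
    refine (norm_sum_le _ _).trans ?_
    have h2 : ∀ k ∈ (Finset.univ : Finset (Fin (n + 1))), ‖((b k : ℤ) : ℂ) * D.l k‖ ≤ E * Om := by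
      intro k _
      rw [norm_mul, Complex.norm_intCast]
      exact mul_le_mul (hbk k) ((D.l_le k).trans (hAle k)) (norm_nonneg _) (by linarith)
    refine (Finset.sum_le_card_nsmul _ _ _ h2).trans (le_of_eq ?_)
    rw [Finset.card_univ, Fintype.card_fin, nsmul_eq_mul]
    push_cast
    ring
  have hmle : |(m : ℝ)| ≤ ((n : ℝ) + 3) * E * Om := by
    have h2 : (m : ℂ) * (2 * Real.pi * Complex.I) = Complex.log (1 + ξ) - LS D.l b := by
      rw [← hm']; ring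
    have h3 := congrArg norm h2
    rw [norm_mul, norm_mul, norm_mul, Complex.norm_I, mul_one, Complex.norm_intCast,
      Complex.norm_real, Real.norm_eq_abs, abs_of_pos Real.pi_pos] at h3
    have h4 : ‖(2 : ℂ)‖ = 2 := by simp
    rw [h4] at h3
    have h5 := norm_sub_le (Complex.log (1 + ξ)) (LS D.l b)
    have h6 := Real.pi_gt_three
    have h7 : |(m : ℝ)| * 1 ≤ |(m : ℝ)| * (2 * Real.pi) :=
      mul_le_mul_of_nonneg_left (by linarith) (abs_nonneg _)
    nlinarith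
  have hfin := hB L hL D m b (((n : ℝ) + 3) * E * Om) (by nlinarith) hmle (fun k => by
    refine (hbk k).trans ?_
    nlinarith [hE, hOm1, mul_nonneg (by linarith : (0 : ℝ) ≤ E) (by linarith : (0 : ℝ) ≤ Om - 1),
      mul_nonneg hn0 (by linarith : (0 : ℝ) ≤ E * Om)]) (by rw [hm']; exact hlog0)
  rw [hm', hprod, ← hOm] at hfin
  exact hfin.trans hlog

theorem fin_num (n : ℕ) (C1 C3 s : ℝ) (hC1 : 1 ≤ C1) (hC3 : 1 ≤ C3) (hs : 0 < s) :
    ∃ C4 : ℝ, 1 ≤ C4 ∧ ∀ x d Om : ℝ, 1 ≤ x → 1 ≤ d → 1 ≤ Om → Om ≤ C3 * d ^ s →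
      0 ≤ Real.log (((n : ℝ) + 3) * (C1 * (20 * Real.log (x + d + 2)) * (108 * d) ^ C1) * Om * Om)
        + 1 ∧
      Real.log (((n : ℝ) + 3) * (C1 * (20 * Real.log (x + d + 2)) * (108 * d) ^ C1) * Om * Om) + 1
        ≤ C4 * (1 + Real.log d + Real.log (1 + Real.log x)) := by
  have hn0 : (0 : ℝ) ≤ n := Nat.cast_nonneg n
  have hln3 : 0 ≤ Real.log ((n : ℝ) + 3) := Real.log_nonneg (by linarith)
  have hlC1 : 0 ≤ Real.log C1 := Real.log_nonneg hC1
  have hl40 : 0 ≤ Real.log 40 := Real.log_nonneg (by norm_num)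
  have hl108 : 0 ≤ Real.log 108 := Real.log_nonneg (by norm_num)
  have hlC3 : 0 ≤ Real.log C3 := Real.log_nonneg hC3
  have hC1l : 0 ≤ C1 * Real.log 108 := by positivity
  refine ⟨(Real.log (n + 3) + Real.log C1 + Real.log 40 + C1 * Real.log 108 +
    2 * Real.log C3 + 1) + (1 + C1 + 2 * s), by linarith, fun x d Om hx hd hOm hOmle => ?_⟩
  have hU0 : 0 ≤ Real.log x := Real.log_nonneg hx
  have hld : 0 ≤ Real.log d := Real.log_nonneg hd
  have hlU : 0 ≤ Real.log (1 + Real.log x) := Real.log_nonneg (by linarith)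
  have hZ1 : 1 ≤ Real.log (x + d + 2) := by
    rw [Real.le_log_iff_exp_le (by linarith)]
    have := Real.exp_one_lt_d9
    linarith
  have hp : 1 ≤ (108 * d) ^ C1 := Real.one_le_rpow (by linarith) (by linarith)
  have hlp : Real.log ((108 * d) ^ C1) = C1 * (Real.log 108 + Real.log d) := by
    rw [Real.log_rpow (by linarith), Real.log_mul (by norm_num) (by linarith)]
  have hlOm : Real.log Om ≤ Real.log C3 + s * Real.log d := by
    have h1 := Real.log_le_log (by linarith) hOmle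
    rwa [Real.log_mul (by linarith) (by positivity), Real.log_rpow (by linarith)] at h1
  have hlOm0 : 0 ≤ Real.log Om := Real.log_nonneg hOm
  have hlZ : Real.log (20 * Real.log (x + d + 2)) ≤
      Real.log 40 + Real.log (1 + Real.log x) + Real.log d := by
    have h1 : x + d + 2 ≤ 4 * (x * d) := by nlinarith
    have h2 : Real.log (x + d + 2) ≤ Real.log 4 + (Real.log x + Real.log d) := by
      have := Real.log_le_log (by linarith) h1
      rwa [Real.log_mul (by norm_num) (by positivity), Real.log_mul (by linarith) (by linarith)]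
        at this
    have h3 : Real.log 4 ≤ 2 := by
      rw [Real.log_le_iff_le_exp (by norm_num)]
      have h4 := Real.add_one_le_exp (1 : ℝ)
      have h5 : Real.exp 2 = Real.exp 1 * Real.exp 1 := by rw [← Real.exp_add]; norm_num
      rw [h5]
      nlinarith
    have h4 : 20 * Real.log (x + d + 2) ≤ 40 * ((1 + Real.log x) * (1 + Real.log d)) := by
      nlinarith [mul_nonneg hU0 hld]
    have h5 := Real.log_le_log (by linarith) h4
    have h5' : Real.log (40 * ((1 + Real.log x) * (1 + Real.log d))) =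
        Real.log 40 + (Real.log (1 + Real.log x) + Real.log (1 + Real.log d)) := by
      rw [Real.log_mul (by norm_num) (by positivity), Real.log_mul (by linarith) (by linarith)]
    rw [h5'] at h5
    have h6 := Real.log_le_sub_one_of_pos (show 0 < 1 + Real.log d by linarith)
    linarith
  have hlZ0 : 0 ≤ Real.log (20 * Real.log (x + d + 2)) := Real.log_nonneg (by linarith)
  have e : Real.log (((n : ℝ) + 3) * (C1 * (20 * Real.log (x + d + 2)) * (108 * d) ^ C1) * Om * Om)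
      = Real.log ((n : ℝ) + 3) + (Real.log C1 + Real.log (20 * Real.log (x + d + 2)) +
        C1 * (Real.log 108 + Real.log d)) + Real.log Om + Real.log Om := by
    have k1 : C1 ≠ 0 := by linarith
    have k2 : 20 * Real.log (x + d + 2) ≠ 0 := by linarith
    have k3 : (108 * d) ^ C1 ≠ 0 := by linarith
    have k4 : Om ≠ 0 := by linarith
    have k5 : (n : ℝ) + 3 ≠ 0 := by linarith
    rw [Real.log_mul (mul_ne_zero (mul_ne_zero k5 (mul_ne_zero (mul_ne_zero k1 k2) k3)) k4) k4,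
      Real.log_mul (mul_ne_zero k5 (mul_ne_zero (mul_ne_zero k1 k2) k3)) k4,
      Real.log_mul k5 (mul_ne_zero (mul_ne_zero k1 k2) k3),
      Real.log_mul (mul_ne_zero k1 k2) k3, Real.log_mul k1 k2, hlp]
  rw [e]
  have hCd : 0 ≤ C1 * Real.log d := by positivity
  have hsd : 0 ≤ s * Real.log d := by positivity
  refine ⟨by nlinarith, ?_⟩
  set Q : ℝ := Real.log (n + 3) + Real.log C1 + Real.log 40 + C1 * Real.log 108 +
    2 * Real.log C3 + 1 with hQ
  have hQ0 : 0 ≤ Q := by rw [hQ]; linarith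
  have h1 : 0 ≤ Q * Real.log d := by positivity
  have h2 : 0 ≤ Q * Real.log (1 + Real.log x) := by positivity
  have h3 : 0 ≤ C1 * Real.log (1 + Real.log x) := by positivity
  have h4 : 0 ≤ s * Real.log (1 + Real.log x) := by positivity
  nlinarith

theorem fin_B (hBT : ST_BT) (n : ℕ) : ∃ C2 : ℝ, 1 ≤ C2 ∧ ∀ (L : Type) [Field L] [NumberField L],
      Module.finrank ℚ L ≤ 9 → ∀ (D : BData (n + 1) L) (b0 : ℤ) (b : Fin (n + 1) → ℤ) (B : ℝ),
      2 ≤ B → |(b0 : ℝ)| ≤ B → (∀ i, |(b i : ℝ)| ≤ B) →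
      (b0 : ℂ) * (2 * Real.pi * Complex.I) + LS D.l b ≠ 0 →
      Real.exp (-C2 * (∏ i, D.A i) * (Real.log (B * ∏ i, D.A i) + 1) ^ 3) ≤
        ‖(b0 : ℂ) * (2 * Real.pi * Complex.I) + LS D.l b‖ := by
  choose C2 hC2 hB using hBT (n + 1)
  have hC2le : ∀ j, j ≤ 9 → C2 j ≤ ∑ j ∈ Finset.range 10, C2 j := by
    intro j hj
    exact Finset.single_le_sum (f := C2) (fun i _ => by linarith [hC2 i])
      (Finset.mem_range.2 (by omega))
  refine ⟨∑ j ∈ Finset.range 10, C2 j, (hC2 0).trans (hC2le 0 (by omega)), ?_⟩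
  intro L' _ _ hL' D b0 b B h1 h2 h3 h4
  refine le_trans (Real.exp_le_exp.2 ?_) (hB (Module.finrank ℚ L') L' rfl D b0 b B h1 h2 h3 h4)
  have h5 : 1 ≤ ∏ i, D.A i :=
    Finset.prod_induction _ (fun z => 1 ≤ z) (fun _ _ => one_le_mul_of_one_le_of_one_le) le_rfl
      (fun j _ => D.one_le_A j)
  have h6 : 0 ≤ Real.log (B * ∏ i, D.A i) + 1 := by
    have : 0 ≤ Real.log (B * ∏ i, D.A i) := Real.log_nonneg (by nlinarith)
    linarith
  have h7 := hC2le _ hL'
  have h8 : C2 (Module.finrank ℚ L') * ((∏ i, D.A i) * (Real.log (B * ∏ i, D.A i) + 1) ^ 3) ≤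
      (∑ j ∈ Finset.range 10, C2 j) * ((∏ i, D.A i) * (Real.log (B * ∏ i, D.A i) + 1) ^ 3) :=
    mul_le_mul_of_nonneg_right h7 (by positivity)
  linarith

theorem fin_cubic (hBT : ST_BT) (hREPR : ST_REPR) (hCUB : ST_CUB) (hCLO : ST_CLO) (hHTS : ST_HTS)
    (ε : ℝ) (hε : 0 < ε) : ∃ K' : ℝ, 1 ≤ K' ∧ ∀ x y : ℤ, 0 < x → y ^ 2 ≠ x ^ 3 →
      (∀ r : ℤ, r ^ 3 - 3 * x * r + 2 * y ≠ 0) →
      Real.log (x : ℝ) ≤ K' * |((y ^ 2 - x ^ 3 : ℤ) : ℝ)| ^ (1 / 2 + ε / 2) *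
        (1 + Real.log |((y ^ 2 - x ^ 3 : ℤ) : ℝ)| + Real.log (1 + Real.log (x : ℝ))) ^ 3 := by
  obtain ⟨n, C1, hC1, hR⟩ := hREPR (ε / 4) (by positivity)
  obtain ⟨C2', hC2'1, hB⟩ := fin_B hBT n
  obtain ⟨s, hs⟩ : ∃ s : ℝ, s = 1 / 2 + ε / 2 := ⟨_, rfl⟩
  have hs0 : 0 < s := by rw [hs]; positivity
  obtain ⟨C3, hC3⟩ : ∃ C3 : ℝ, C3 = 36 ^ (n + 1) * (C1 * 108 ^ s) := ⟨_, rfl⟩
  have hC3' : 1 ≤ C3 := by
    rw [hC3]
    exact one_le_mul_of_one_le_of_one_le (one_le_pow₀ (by norm_num))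
      (one_le_mul_of_one_le_of_one_le hC1 (Real.one_le_rpow (by norm_num) hs0.le))
  obtain ⟨C4, hC4, hnum⟩ := fin_num n C1 C3 s hC1 hC3' hs0
  refine ⟨12 + C2' * C3 * C4 ^ 3, by
    have : 0 ≤ C2' * C3 * C4 ^ 3 := by positivity
    linarith, fun x y hx hxy hr => ?_⟩
  obtain ⟨K, _, _, γ, s1, s2, s3, hK, hγ, hsum, hsm, hdisc, hnorm, hlog⟩ := hCUB x y hx hxy hr
  rw [← hs]
  obtain ⟨d, hd⟩ : ∃ d : ℝ, d = |((y ^ 2 - x ^ 3 : ℤ) : ℝ)| := ⟨_, rfl⟩
  have hd1 : 1 ≤ d := by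
    rw [hd, ← Int.cast_abs]
    have : 1 ≤ |y ^ 2 - x ^ 3| := Int.one_le_abs (sub_ne_zero.2 hxy)
    exact_mod_cast this
  rw [← hd] at hsm hdisc hnorm hlog ⊢
  have hx1 : (1 : ℝ) ≤ x := by exact_mod_cast hx
  obtain ⟨X, hX⟩ : ∃ X : ℝ, X = (x : ℝ) := ⟨_, rfl⟩
  rw [← hX] at hx1 hsm hlog ⊢
  have hU0 : 0 ≤ Real.log X := Real.log_nonneg hx1
  have hld : 0 ≤ Real.log d := Real.log_nonneg hd1
  have hlU : 0 ≤ Real.log (1 + Real.log X) := Real.log_nonneg (by linarith)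
  obtain ⟨W, hW⟩ : ∃ W : ℝ, W = 1 + Real.log d + Real.log (1 + Real.log X) := ⟨_, rfl⟩
  have hW1 : 1 ≤ W := by rw [hW]; linarith
  rw [← hW]
  have hds : 1 ≤ d ^ s := Real.one_le_rpow hd1 hs0.le
  have hdW : W ≤ d ^ s * W ^ 3 := by
    have h1 : W ≤ W ^ 3 := by
      calc W = W ^ 1 := (pow_one W).symm
        _ ≤ W ^ 3 := pow_le_pow_right₀ hW1 (by norm_num)
    have h2 : 0 ≤ W ^ 3 := by positivity
    nlinarith
  have hx32 : 0 < X ^ (3 / 2 : ℝ) := by positivity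
  have hγK : (γ : K) ≠ 0 := by
    intro h
    exact hγ (NumberField.RingOfIntegers.ext (by rw [h]; rfl))
  have hg1 : s1 (γ : K) ≠ 0 := (map_ne_zero s1).2 hγK
  have hg2 : s2 (γ : K) ≠ 0 := (map_ne_zero s2).2 hγK
  have hg3 : s3 (γ : K) ≠ 0 := (map_ne_zero s3).2 hγK
  obtain ⟨ξ, hξ⟩ : ∃ ξ, ξ = s2 (γ : K) / s1 (γ : K) := ⟨_, rfl⟩
  have hξ0 : ξ ≠ 0 := by rw [hξ]; exact div_ne_zero hg2 hg1
  have hξn : ‖ξ‖ * X ^ (3 / 2 : ℝ) ≤ 6 * Real.sqrt d := by
    rw [hξ, norm_div, div_mul_eq_mul_div, div_le_iff₀ (norm_pos_iff.2 hg1)]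
    exact hsm
  have hlogx32 : Real.log (X ^ (3 / 2 : ℝ)) = 3 / 2 * Real.log X := Real.log_rpow (by linarith) _
  have hlogsq : Real.log (Real.sqrt d) = Real.log d / 2 := Real.log_sqrt (by linarith)
  have hsqpos : 0 < Real.sqrt d := Real.sqrt_pos.2 (by linarith)
  have hCC : 0 ≤ C2' * C3 * C4 ^ 3 := by positivity
  have hdW0 : 0 ≤ d ^ s * W ^ 3 := by positivity
  by_cases hbig : 1 / 2 < ‖ξ‖
  · have h1 : X ^ (3 / 2 : ℝ) ≤ 12 * Real.sqrt d := by nlinarith
    have h2 := Real.log_le_log hx32 h1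
    rw [hlogx32, Real.log_mul (by norm_num) hsqpos.ne', hlogsq] at h2
    have h3 : Real.log 12 ≤ 12 - 1 := Real.log_le_sub_one_of_pos (by norm_num)
    have h4 : Real.log X ≤ 12 * W := by rw [hW]; linarith
    rw [mul_assoc]
    nlinarith
  · push Not at hbig
    obtain ⟨L, _, _, i, t2, t3, hL, hi2, hi3⟩ := hCLO K hK s2 s3
    have hlZ1 : 1 ≤ Real.log (X + d + 2) := by
      rw [Real.le_log_iff_exp_le (by linarith)]
      have := Real.exp_one_lt_d9
      linarith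
    obtain ⟨β, a, β', a', c, hβ, hβ', ha', hβ's, hγe, hc, hprod⟩ :=
      hR K hK γ (20 * Real.log (X + d + 2)) hγ (by linarith) hlog
    obtain ⟨Om, hOm⟩ : ∃ Om : ℝ, Om = 36 ^ (n + 1) * (a' * ∏ j, a j) := ⟨_, rfl⟩
    have hpa : 1 ≤ ∏ j, a j :=
      Finset.prod_induction _ (fun z => 1 ≤ z) (fun _ _ => one_le_mul_of_one_le_of_one_le) le_rfl
        (fun j _ => (hβ j).2.1)
    have hOm1 : 1 ≤ Om := by
      rw [hOm]
      exact one_le_mul_of_one_le_of_one_le (one_le_pow₀ (by norm_num))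
        (one_le_mul_of_one_le_of_one_le ha' hpa)
    have h108 : 0 ≤ 108 * d := by linarith
    have hOmle : Om ≤ C3 * d ^ s := by
      have h1 : |(discr K : ℝ)| ^ (1 / 2 + ε / 4) ≤ (108 * d) ^ (1 / 2 + ε / 4) :=
        Real.rpow_le_rpow (abs_nonneg _) hdisc (by positivity)
      have h2 : (((Algebra.norm ℤ γ).natAbs : ℕ) : ℝ) ^ (ε / 4) ≤ (108 * d) ^ (ε / 4) :=
        Real.rpow_le_rpow (Nat.cast_nonneg _) hnorm (by positivity)
      have h3 : (108 * d) ^ (1 / 2 + ε / 4) * (108 * d) ^ (ε / 4) = 108 ^ s * d ^ s := by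
        rw [← Real.rpow_add (by linarith), ← Real.mul_rpow (by norm_num) (by linarith)]
        congr 1
        rw [hs]; ring
      have h4 : a' * ∏ j, a j ≤ C1 * (108 ^ s * d ^ s) := by
        refine hprod.trans ?_
        rw [mul_assoc, ← h3]
        refine mul_le_mul_of_nonneg_left ?_ (by linarith)
        exact mul_le_mul h1 h2 (by positivity) (by positivity)
      rw [hOm, hC3]
      calc 36 ^ (n + 1) * (a' * ∏ j, a j) ≤ 36 ^ (n + 1) * (C1 * (108 ^ s * d ^ s)) :=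
            mul_le_mul_of_nonneg_left h4 (by positivity)
        _ = _ := by ring
    obtain ⟨E, hE⟩ : ∃ E : ℝ, E = C1 * (20 * Real.log (X + d + 2)) * (108 * d) ^ C1 := ⟨_, rfl⟩
    have hp : 1 ≤ (108 * d) ^ C1 := Real.one_le_rpow (by linarith) (by linarith)
    have hE1 : 1 ≤ E := by
      rw [hE]
      exact one_le_mul_of_one_le_of_one_le (one_le_mul_of_one_le_of_one_le hC1 (by linarith)) hp
    have hcE : ∀ j, |(c j : ℝ)| ≤ E := by
      intro j
      refine (hc j).trans ?_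
      rw [hE]
      refine mul_le_mul_of_nonneg_left ?_ (by
        have : 0 ≤ C1 * (20 * Real.log (X + d + 2)) := by
          apply mul_nonneg <;> linarith
        exact this)
      exact Real.rpow_le_rpow (abs_nonneg _) hdisc (by linarith)
    have hγξ : i (-(t2 (γ : K) / t3 (γ : K))) = 1 + ξ := by
      have e2 : i (t2 (γ : K)) = s2 (γ : K) := by rw [← hi2]; rfl
      have e3 : i (t3 (γ : K)) = s3 (γ : K) := by rw [← hi3]; rfl
      rw [map_neg, map_div₀, e2, e3, hξ]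
      field_simp at hsum ⊢
      linear_combination (-1) * hsum
    have hlin := fin_lin hHTS n C2' hB
      K L i t2 t3 hL β a β' a' c hβ hβ' ha' hβ's (γ : K) hγe ξ hξ0 hbig hγξ E hE1 hcE Om hOm
    obtain ⟨hn1, hn2⟩ := hnum X d Om hx1 hd1 hOm1 hOmle
    rw [← hE, ← hW] at hn2
    rw [← hE] at hn1
    have h1 : 3 / 2 * ‖ξ‖ ≤ 9 * Real.sqrt d / X ^ (3 / 2 : ℝ) := by
      rw [le_div_iff₀ hx32]
      linarith
    have h2 := hlin.trans h1
    have h3 : 0 < 9 * Real.sqrt d / X ^ (3 / 2 : ℝ) := by positivity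
    rw [← Real.le_log_iff_exp_le h3, Real.log_div (by positivity) hx32.ne',
      Real.log_mul (by norm_num) hsqpos.ne', hlogx32, hlogsq] at h2
    have h4 : Real.log 9 ≤ 9 - 1 := Real.log_le_sub_one_of_pos (by norm_num)
    have h5 : (Real.log (((n : ℝ) + 3) * E * Om * Om) + 1) ^ 3 ≤ (C4 * W) ^ 3 :=
      pow_le_pow_left₀ hn1 hn2 3
    have h6 : C2' * Om * (Real.log (((n : ℝ) + 3) * E * Om * Om) + 1) ^ 3 ≤
        C2' * (C3 * d ^ s) * (C4 * W) ^ 3 :=
      mul_le_mul (mul_le_mul_of_nonneg_left hOmle (by linarith)) h5 (by positivity) (by positivity)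
    have h7 : C2' * (C3 * d ^ s) * (C4 * W) ^ 3 = (C2' * C3 * C4 ^ 3) * (d ^ s * W ^ 3) := by ring
    rw [h7] at h6
    have h8 : Real.log d ≤ W := by rw [hW]; linarith
    have h9 : (12 + C2' * C3 * C4 ^ 3) * d ^ s * W ^ 3 =
        12 * (d ^ s * W ^ 3) + (C2' * C3 * C4 ^ 3) * (d ^ s * W ^ 3) := by ring
    have h10 : -C2' * Om * (Real.log (((n : ℝ) + 3) * E * Om * Om) + 1) ^ 3 =
        -(C2' * Om * (Real.log (((n : ℝ) + 3) * E * Om * Om) + 1) ^ 3) := by ring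
    rw [h10] at h2
    rw [h9]
    linarith

theorem st_FIN (hBT : ST_BT) (hREPR : ST_REPR) (hCUB : ST_CUB) (hCLO : ST_CLO) (hHTS : ST_HTS)
    (hRED0 : ST_RED0) : Pool.Agent.Helper60.HB.ST_FIN := by
  intro ε hε
  obtain ⟨K', hK', hcub⟩ := fin_cubic hBT hREPR hCUB hCLO hHTS ε hε
  obtain ⟨C, hC, hsol⟩ := fin_solve (1 / 2 + ε / 2) (1 / 2 + ε) K' (by positivity) (by linarith) hK'
  refine ⟨C + 3, fun x y hxy => ?_⟩
  have hd' : |(y : ℝ) ^ 2 - (x : ℝ) ^ 3| = |((y ^ 2 - x ^ 3 : ℤ) : ℝ)| := by push_cast; rfl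
  rw [hd']
  obtain ⟨d, hd⟩ : ∃ d : ℝ, d = |((y ^ 2 - x ^ 3 : ℤ) : ℝ)| := ⟨_, rfl⟩
  have hd1 : 1 ≤ d := by
    rw [hd, ← Int.cast_abs]
    have : 1 ≤ |y ^ 2 - x ^ 3| := Int.one_le_abs (sub_ne_zero.2 hxy)
    exact_mod_cast this
  rw [← hd]
  have hdt : 1 ≤ d ^ (1 / 2 + ε) := Real.one_le_rpow hd1 (by positivity)
  have hld : Real.log d ≤ 2 * d ^ (1 / 2 + ε) := by
    have h1 := Real.log_le_rpow_div (show 0 ≤ d by linarith) (show 0 < 1 / 2 + ε by positivity)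
    refine h1.trans ?_
    rw [div_le_iff₀ (by positivity)]
    nlinarith
  have hld0 : 0 ≤ Real.log d := Real.log_nonneg hd1
  have hCd : 0 ≤ C * d ^ (1 / 2 + ε) := by positivity
  by_cases hx : 0 < x
  · by_cases hr : ∃ r : ℤ, r ^ 3 - 3 * x * r + 2 * y = 0
    · obtain ⟨r, hr⟩ := hr
      have h1 := hRED0 x y r hxy hr
      have h2 : |(x : ℝ)| ≤ 2 * d := by
        rw [hd]
        have h3 : ((|x| : ℤ) : ℝ) ≤ ((2 * |y ^ 2 - x ^ 3| : ℤ) : ℝ) := by exact_mod_cast h1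
        push_cast at h3 ⊢
        exact h3
      have h3 : 0 < |(x : ℝ)| := by
        rw [abs_pos]
        exact_mod_cast hx.ne'
      have h4 := Real.log_le_log h3 h2
      rw [Real.log_mul (by norm_num) (by linarith)] at h4
      have h5 : Real.log 2 ≤ 2 - 1 := Real.log_le_sub_one_of_pos (by norm_num)
      nlinarith
    · push Not at hr
      have h1 := hcub x y hx hxy hr
      rw [← hd] at h1
      have hx1 : (1 : ℝ) ≤ x := by exact_mod_cast hx
      have h2 := hsol (Real.log (x : ℝ)) d (Real.log_nonneg hx1) hd1 h1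
      rw [abs_of_pos (by linarith)]
      nlinarith
  · push Not at hx
    by_cases hx0 : x = 0
    · rw [hx0]
      simp
      positivity
    · have hx1 : x ≤ -1 := by omega
      have h1 : |(x : ℝ)| ≤ d := by
        have h2 : |x| ≤ |y ^ 2 - x ^ 3| := by
          have h3 : x ^ 3 ≤ x := by nlinarith [mul_nonneg (show 0 ≤ -x by omega) (show 0 ≤ -x - 1 by omega)]
          rw [abs_of_neg (by omega), abs_of_nonneg (by nlinarith [sq_nonneg y])]
          nlinarith [sq_nonneg y]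
        rw [hd]
        have h4 : ((|x| : ℤ) : ℝ) ≤ ((|y ^ 2 - x ^ 3| : ℤ) : ℝ) := by exact_mod_cast h2
        push_cast at h4 ⊢
        exact h4
      have h3 : 0 < |(x : ℝ)| := by
        rw [abs_pos]
        exact_mod_cast hx0
      have h4 := Real.log_le_log h3 h1
      nlinarith

end Pool.Agent.Helper44.HB
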